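import Mathlib
import Pool.Agent.N178.BL.Defs

/-!
# Bloch–Beilinson filtrations on the Chow groups of complex abelian varieties
-/

namespace Pool.Agent.N178.GB

noncomputable section

open Module Pool.Agent.Y90 Pool.Agent.R915 Pool.Agent.N178.BL
open Pool.Agent.W546.GHC (typeForms)

/-- The value of the complex class `ψ` on the elements `w` of the rational homology. -/
def val {X : AV} {m : ℕ} (ψ : X.T [⋀^Fin m]→ₗ[ℝ] ℂ) (w : Fin m → X.H) : ℂ :=
  ψ fun l => X.per (w l)

/-- The value of the component of degree `m` of `ω`. -/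
def rat {X : AV} {m : ℕ} (ω : HT X) (w : Fin m → X.H) : ℂ := (ω m w : ℚ)

/-- `φ = f^* ψ` for the action `f^*` on the complex cohomology: `ψ` is the combination of the rational
classes `ω k` of degree `m` with the coefficients `c k`, and `φ` the one of the classes `f^* (ω k)`. -/
def PullsTo (C : ChowTheory) {X Y : AV} (f : C.Co X Y) (m : ℕ) (ψ : Y.T [⋀^Fin m]→ₗ[ℝ] ℂ)
    (φ : X.T [⋀^Fin m]→ₗ[ℝ] ℂ) : Prop :=
  ∃ (n : ℕ) (c : Fin n → ℂ) (ω : Fin n → HT Y), (∀ w, val ψ w = ∑ k, c k * rat (ω k) w) ∧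
    ∀ w, val φ w = ∑ k, c k * rat (C.pb f (ω k)) w

/-- The map `Z^* : H^(i, 0)(Y) → H^(i, 0)(X)` is zero. -/
def KillsForms (C : ChowTheory) {X Y : AV} (Z : C.Co X Y) (i : ℕ) : Prop :=
  ∀ ψ ∈ typeForms Y.T i i 0, ∀ φ, PullsTo C Z i ψ φ → φ = 0

/-- The group spanned by the products `f 1 ∘ ⋯ ∘ f m ∘ z`, where `z` is a zero-cycle on `X` and the
`f k` are homologically trivial correspondences of degree zero from `X` to `X`. (`O` is a point.) -/
inductive Products (C : ChowTheory) {O X : AV} : ℕ → C.Co O X → Prop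
  | base (z) : C.IsDeg 0 z → Products C 0 z
  | step (m f z) : C.IsDeg 0 f → (∀ ω, C.pb f ω = 0) → Products C m z → Products C (m + 1) (C.o f z)
  | sub (m z z') : Products C m z → Products C m z' → Products C m (z - z')

/-- More known properties of the Chow groups of complex abelian varieties. -/
structure Known (C : ChowTheory) : Prop where
  /-- correspondences of degree zero preserve the degree of cohomology classes -/
  graded : ∀ {X Y} (f : C.Co X Y), C.IsDeg 0 f → ∀ (ω η : HT Y) (m : ℕ), ω m = η m →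
    C.pb f ω m = C.pb f η m
  /-- and the Hodge types -/
  types : ∀ {X Y} (f : C.Co X Y), C.IsDeg 0 f → ∀ m s t ψ φ, PullsTo C f m ψ φ →
    ψ ∈ typeForms Y.T m s t → φ ∈ typeForms X.T m s t
  /-- Lieberman: the inverse of the Lefschetz isomorphism `H^m(X) → H^(2n - m)(X)`, `m ≤ n = dim X`, is
  algebraic -/
  lefschetz : ∀ X n m, finrank ℚ X.H = 2 * n → m ≤ n → ∃ s L : C.Co X X,
    C.IsDeg (n - m) s ∧ C.IsDeg (m - n) L ∧ ∀ ω, C.pb (C.o L s) ω m = ω m
  /-- Bloch, Beauville, Deninger–Murre: there is a correspondence `π`, which acts on the cohomology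
  as the projector to `H^m(X)`, such that `π ∘ z` belongs to the `m`-th Pontryagin power of the group
  of zero-cycles of degree zero, for all zero-cycles `z` on `X` -/
  bloch : ∀ X m, ∃ π : C.Co X X, C.IsDeg 0 π ∧ (∀ ω, C.pb π ω m = ω m ∧ ∀ l, l ≠ m →
    C.pb π ω l = 0) ∧ ∀ (O : AV) (z : C.Co O X), finrank ℚ O.H = 0 → C.IsDeg 0 z →
      Products C m (C.o π z)

/-- A Bloch–Beilinson filtration on the Chow groups of complex abelian varieties, with rational
coefficients. The cycles on `X` are the correspondences from the point `O` to `X`, and `F ν i z` means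
that the cycle `z` on `X` belongs to `F^ν CH_i(X)`. -/
structure BlochBeilinson (C : ChowTheory) (O : AV) where
  F : ∀ {X}, ℕ → ℤ → C.Co O X → Prop
  sub : ∀ {X} ν i (z z' : C.Co O X), F ν i z → F ν i z' → F ν i (z - z')
  anti : ∀ {X} ν i (z : C.Co O X), F (ν + 1) i z → F ν i z
  /-- (i) -/
  zero : ∀ {X} i (z : C.Co O X), F 0 i z ↔ C.IsDeg i z
  one : ∀ {X} i (z : C.Co O X), F 1 i z ↔ C.IsDeg i z ∧ ∀ ω, C.pb z ω = 0
  /-- (ii) -/
  functorial : ∀ {X Y} ν i r (z : C.Co O X) (Z : C.Co X Y), C.IsDeg r Z → F ν i z →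
    F ν (i + r) (C.o Z z)
  /-- (iii) -/
  trivial : ∀ {X Y} ν i r (z : C.Co O X) (Z : C.Co X Y), C.IsDeg r Z → (∀ ω, C.pb Z ω = 0) →
    F ν i z → F (ν + 1) (i + r) (C.o Z z)
  /-- (iv): `F^ν CH^k(X) = 0` for `ν > k = dim X - i` -/
  bound : ∀ {X} (ν : ℕ) i (z : C.Co O X), F ν i z → finrank ℚ X.H < 2 * (i + ν) → z = 0

end

end Pool.Agent.N178.GB
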