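import Mathlib
import Pool.Agent.N178.GB.Defs
import Pool.Agent.N178.BL.Main

/-!
# The generalized Bloch conjecture for zero-cycles: the proofs
-/

set_option linter.unusedSectionVars false

namespace Pool.Agent.N178.GB

open Module Pool.Agent.Y90 Pool.Agent.R915 Pool.Agent.N178.BL
open Pool.Agent.W546.GHC (IsHodgeSubstructure LevelLE complexify typeForms)
open Pool.Agent.N178.HX (Cor GHC)

noncomputable section

variable {C : ChowTheory} {X Y : AV} {c : ℕ}

/-- The components of the image of a correspondence of degree zero (generalizes `BL.img_le`). -/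
theorem img_le' (hG : GHC C.alg X) {p : C.Co X X} (hp : C.IsDeg 0 p) (hc : C.HasConiveau p c)
    (m : ℕ) : ∀ v ∈ C.img p m, inc X m v ∈ ⨆ i : Ix C X c, Rg i := by
  have hV := C.hodge p hp m
  change IsHodgeSubstructure X.per (C.img p m) at hV
  rcases le_or_gt (2 * c) m with h | h
  · obtain ⟨n, rfl⟩ : ∃ n, m = n + 2 * c := ⟨m - 2 * c, by omega⟩
    have hL : LevelLE X.per (C.img p (n + 2 * c)) n := by
      intro s t hst hne
      by_cases h1 : s = t
      · subst h1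
        rw [sub_self, abs_zero]
        exact Int.natCast_nonneg n
      · have h2 : ¬ (s < c ∨ t < c) := fun h2 => hne (hc _ s t hst h1 h2)
        rw [abs_le]
        constructor <;> omega
    intro v hv
    have h1 := hG n c _ hV hL hv
    unfold Cor at h1
    clear hv
    induction h1 using Submodule.span_induction with
    | mem f hf =>
      obtain ⟨Y, P, a, b, τ, y, ha, hb, hab, hτ, hfx⟩ := hf
      obtain ⟨Γ, hΓ, h2⟩ := C.classes a b ha hb hab n (n + 2 * c) c rfl τ hτ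
      obtain ⟨ω, hω, hω'⟩ := h2 y f hfx
      have h3 : inc X (n + 2 * c) f ∈
          Rg (⟨Y, c, Γ, Or.inl rfl, hΓ⟩ : Ix C X c) := ⟨ω, eq_inc hω hω'⟩
      exact Submodule.mem_iSup_of_mem _ h3
    | zero => rw [map_zero]; exact Submodule.zero_mem _
    | add f g _ _ hf hg => rw [map_add]; exact Submodule.add_mem _ hf hg
    | smul r f _ hf => rw [map_smul]; exact Submodule.smul_mem _ _ hf
  · rcases Nat.even_or_odd' m with ⟨j, hj | hj⟩
    · obtain rfl : m = 0 + 2 * j := by omega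
      have hL : LevelLE X.per (C.img p (0 + 2 * j)) (0 : ℕ) := by
        intro s t hst hne
        by_cases h1 : s = t
        · subst h1
          rw [sub_self, abs_zero]
          exact Int.natCast_nonneg 0
        · exact absurd (hc _ s t hst h1 (by omega)) hne
      intro v hv
      have h1 := Pool.Agent.N507.GHC3.A_of_Cor C.alg X _ v (hG 0 j _ hV hL hv)
      obtain ⟨O, hO⟩ := exists_point
      have hO' : Subsingleton O.H := Module.finrank_zero_iff.1 hO
      have hb : Function.Bijective fun w : O.H × X.H => (0 : O.H →ₗ[ℚ] X.H) w.1 +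
          (LinearMap.id : X.H →ₗ[ℚ] X.H) w.2 := by
        constructor
        · intro w w' h2
          refine Prod.ext (Subsingleton.elim _ _) ?_
          simpa using h2
        · intro x
          exact ⟨(0, x), by simp⟩
      obtain ⟨Γ, hΓ, h2⟩ := C.classes (Y := O) (X := X) (P := X) 0 LinearMap.id
        ⟨0, fun v => by rw [LinearMap.zero_apply, LinearMap.zero_apply, map_zero]⟩
        ⟨LinearMap.id, fun v => rfl⟩ hb 0 (0 + 2 * j) j rfl
        (v.domDomCongr (Equiv.emptySum (Fin 0) (Fin (0 + 2 * j))).symm)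
        (C.alg.reindex _ _ h1)
      obtain ⟨ω, hω, hω'⟩ := h2 (fun _ => 0) v (fun x => by
        rw [AlternatingMap.domDomCongr_apply]
        congr 1)
      have h3 : inc X (0 + 2 * j) v ∈
          Rg (⟨O, j, Γ, Or.inr ⟨by omega, hO⟩, hΓ⟩ : Ix C X c) := ⟨ω, eq_inc hω hω'⟩
      exact Submodule.mem_iSup_of_mem _ h3
    · have h1 : complexify X.per (C.img p m) = ⊥ := by
        rw [eq_bot_iff]
        unfold IsHodgeSubstructure at hV
        rw [hV]
        refine iSup_le fun s => iSup_le fun t => iSup_le fun hst => ?_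
        rw [hc m s t hst (by omega) (by omega)]
      intro v hv
      rw [eq_bot_of h1, Submodule.mem_bot] at hv
      rw [hv, map_zero]
      exact Submodule.zero_mem _

/-- An element of `Fac` which fixes the image of `e`. -/
theorem exists_q (hG : GHC C.alg X) {e : C.Co X X} (he : C.IsDeg 0 e) (hc : C.HasConiveau e c) :
    ∃ q ∈ Fac C X c, ∀ ω, C.pb q (C.pb e ω) = C.pb e ω := by
  classical
  obtain ⟨U, hU⟩ : ∃ U : Submodule ℚ (HT X), U = (Finset.range (finrank ℚ X.H + 1)).sup fun m =>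
    (C.img e m).map (inc X m) := ⟨_, rfl⟩
  have hfg : U.FG := by
    rw [hU]
    refine Submodule.fg_finset_sup _ _ fun m _ => (finite_img m).map _
  have hle : U ≤ ⨆ i : Ix C X c, Rg i := by
    rw [hU]
    refine Finset.sup_le fun m _ => ?_
    rintro _ ⟨v, hv, rfl⟩
    exact img_le' hG he hc m v hv
  obtain ⟨q, hq, hqU⟩ := exists_fix hfg hle
  refine ⟨q, hq, fun v => hqU _ ?_⟩
  rw [sum_inc (C.pb e v)]
  refine Submodule.sum_mem _ fun m hm => ?_
  rw [hU]
  have h2 := Finset.le_sup (f := fun m => (C.img e m).map (inc X m)) hm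
  exact h2 ⟨C.pb e v m, Submodule.subset_span ⟨v, rfl⟩, rfl⟩

/-- Elements of `Fac` kill the homologically trivial cycles of small dimension. -/
theorem kill {q : C.Co X X} (hq : q ∈ Fac C X c) {O : AV} (hO : finrank ℚ O.H = 0) {i : ℤ}
    (hi : i < c) {z : C.Co O X} (hz : C.IsDeg i z) (h0 : ∀ ω, C.pb z ω = 0) : C.o q z = 0 := by
  unfold BL.Fac at hq
  induction hq using AddSubgroup.closure_induction with
  | mem q hq =>
    obtain ⟨Y, r, Γ, κ, h1, h2, h3, rfl⟩ := hq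
    rw [← C.assoc]
    have h4 : C.o Γ z = 0 := by
      rcases h1 with rfl | ⟨-, hY⟩
      · refine C.deg_neg _ (C.deg_o z Γ hz h2) ?_
        rw [hO]
        push_cast
        omega
      · refine C.point _ hO hY fun ω => ?_
        have h5 : C.pb (C.o Γ z) ω = C.pb z (C.pb Γ ω) := C.pb_o z Γ ω
        rw [h5, h0]
    rw [h4, o_zero]
  | zero => rw [zero_o]
  | add a b _ _ ha hb => rw [C.add_o, ha, hb, add_zero]
  | neg a _ ha => rw [neg_o, ha, neg_zero]

/-! ### Forms -/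

/-- Forms are determined by their values on the periods. -/
theorem form_ext {m : ℕ} {φ ψ : X.T [⋀^Fin m]→ₗ[ℝ] ℂ}
    (h : ∀ w : Fin m → X.H, φ (fun l => X.per (w l)) = ψ (fun l => X.per (w l))) : φ = ψ := by
  have h1 := Pool.Agent.N507.GHC3.ext_span X.span φ.toMultilinearMap ψ.toMultilinearMap h
  ext u
  exact congrArg (fun F => F u) h1

theorem sum_eval {m n : ℕ} (f : Fin n → X.T [⋀^Fin m]→ₗ[ℝ] ℂ) (u : Fin m → X.T) :
    (∑ k, f k) u = ∑ k, f k u :=
  map_sum (⟨⟨fun g => g u, rfl⟩, fun _ _ => rfl⟩ : (X.T [⋀^Fin m]→ₗ[ℝ] ℂ) →+ ℂ) f Finset.univ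

theorem exists_form (m : ℕ) {n : ℕ} (a : Fin n → ℂ) (θ : Fin n → X.H [⋀^Fin m]→ₗ[ℚ] ℚ) :
    ∃ ψ : X.T [⋀^Fin m]→ₗ[ℝ] ℂ, ∀ w : Fin m → X.H,
      ψ (fun l => X.per (w l)) = ∑ k, a k * ((θ k w : ℚ) : ℂ) := by
  choose ψ hψ using fun k => ext_of X (θ k)
  refine ⟨∑ k, a k • ψ k, fun w => ?_⟩
  rw [sum_eval]
  refine Finset.sum_congr rfl fun k _ => ?_
  rw [AlternatingMap.smul_apply, hψ, smul_eq_mul]

theorem exists_comb {m : ℕ} {V : Submodule ℚ (X.H [⋀^Fin m]→ₗ[ℚ] ℚ)} {φ : X.T [⋀^Fin m]→ₗ[ℝ] ℂ}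
    (h : φ ∈ complexify X.per V) : ∃ (n : ℕ) (a : Fin n → ℂ) (v : Fin n → X.H [⋀^Fin m]→ₗ[ℚ] ℚ),
      (∀ k, v k ∈ V) ∧ ∀ w : Fin m → X.H,
        φ (fun l => X.per (w l)) = ∑ k, a k * ((v k w : ℚ) : ℂ) := by
  unfold complexify at h
  obtain ⟨n, a, g, rfl⟩ := Submodule.mem_span_set'.1 h
  choose v hv hv' using fun k => (g k).2
  refine ⟨n, a, v, hv, fun w => ?_⟩
  rw [sum_eval]
  refine Finset.sum_congr rfl fun k _ => ?_
  rw [AlternatingMap.smul_apply, hv', smul_eq_mul]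

/-- Rational linear maps are compatible with complex linear relations. -/
theorem rel {A B : Type} {V W : Type} [AddCommGroup V] [Module ℚ V] [AddCommGroup W] [Module ℚ W]
    (ev : A → V →ₗ[ℚ] ℚ) (hev : ∀ v, (∀ a, ev a v = 0) → v = 0) (ev' : B → W →ₗ[ℚ] ℚ)
    (L : V →ₗ[ℚ] W) {n : ℕ} (a : Fin n → ℂ) (θ : Fin n → V)
    (h : ∀ w, ∑ k, a k * ((ev w (θ k) : ℚ) : ℂ) = 0) (w : B) :
    ∑ k, a k * ((ev' w (L (θ k)) : ℚ) : ℂ) = 0 := by
  classical
  obtain ⟨β⟩ : Nonempty (Basis (Basis.ofVectorSpaceIndex ℚ ℂ) ℚ ℂ) := ⟨Basis.ofVectorSpace ℚ ℂ⟩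
  have h1 : ∀ b, ∑ k, β.repr (a k) b • θ k = 0 := by
    intro b
    apply hev
    intro w
    have h2 := congrArg (fun x => β.repr x b) (h w)
    simp only [map_sum, map_zero, Finsupp.coe_zero, Pi.zero_apply] at h2
    rw [map_sum, ← h2, Finsupp.finsetSum_apply]
    refine Finset.sum_congr rfl fun k _ => ?_
    rw [map_smul, smul_eq_mul]
    have h3 : a k * ((ev w (θ k) : ℚ) : ℂ) = (ev w (θ k) : ℚ) • a k := by
      rw [Algebra.smul_def, mul_comm]
      rfl
    rw [h3, map_smul, Finsupp.smul_apply, smul_eq_mul, mul_comm]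
  have h4 : ∑ k, a k * ((ev' w (L (θ k)) : ℚ) : ℂ) = 0 := by
    have h5 : ∀ k, a k * ((ev' w (L (θ k)) : ℚ) : ℂ) = (ev' w (L (θ k)) : ℚ) • a k := by
      intro k
      rw [Algebra.smul_def, mul_comm]
      rfl
    simp only [h5]
    apply β.repr.injective
    ext b
    rw [map_sum, Finsupp.finsetSum_apply, map_zero, Finsupp.zero_apply]
    have h6 := congrArg (fun v => ev' w (L v)) (h1 b)
    simp only [map_sum, map_smul, map_zero, smul_eq_mul] at h6
    rw [← h6]
    refine Finset.sum_congr rfl fun k _ => ?_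
    rw [map_smul, Finsupp.smul_apply, smul_eq_mul, mul_comm]
  exact h4

/-- The conjugate form. -/
theorem exists_conj {m : ℕ} {V : Submodule ℚ (X.H [⋀^Fin m]→ₗ[ℚ] ℚ)} {φ : X.T [⋀^Fin m]→ₗ[ℝ] ℂ}
    (h : φ ∈ complexify X.per V) : ∃ φ' ∈ complexify X.per V, ∀ u, φ' u = starRingEnd ℂ (φ u) := by
  obtain ⟨n, a, v, hv, hφ⟩ := exists_comb h
  choose ψ hψ using fun k => ext_of X (v k)
  refine ⟨∑ k, starRingEnd ℂ (a k) • ψ k, Submodule.sum_mem _ fun k _ =>
    Submodule.smul_mem _ _ (Submodule.subset_span ⟨v k, hv k, hψ k⟩), fun u => ?_⟩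
  have h1 : (∑ k, starRingEnd ℂ (a k) • ψ k) =
      (Complex.conjAe.toLinearMap).compAlternatingMap φ := by
    refine form_ext fun w => ?_
    rw [sum_eval, LinearMap.compAlternatingMap_apply]
    change _ = starRingEnd ℂ (φ fun l => X.per (w l))
    rw [hφ, map_sum]
    refine Finset.sum_congr rfl fun k _ => ?_
    rw [AlternatingMap.smul_apply, hψ, smul_eq_mul, map_mul, map_ratCast]
  rw [h1]
  rfl

/-- It is enough to consider the type `(m, 0)`. -/
theorem coniv_of {e : C.Co X X} (h : ∀ m : ℕ, 0 < m → ∀ φ ∈ complexify X.per (C.img e m),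
    φ ∈ typeForms X.T m m 0 → φ = 0) : C.HasConiveau e 1 := by
  intro m s t hst hne h1
  rw [eq_bot_iff]
  rintro φ ⟨hφ, hφ'⟩
  rw [Submodule.mem_bot]
  have hm : 0 < m := by omega
  rcases Nat.eq_zero_or_pos t with ht | ht
  · subst ht
    obtain rfl : s = m := by omega
    exact h _ hm φ hφ hφ'
  · obtain rfl : s = 0 := by omega
    obtain rfl : t = m := by omega
    obtain ⟨φ₁, h2, h3⟩ := exists_conj hφ
    have h4 : φ₁ = 0 := by
      refine h _ hm φ₁ h2 fun z u => ?_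
      rw [h3, h3, hφ' z u, map_mul, map_mul, map_pow, map_pow, Complex.conj_conj]
      ring
    ext u
    have h5 := h3 u
    rw [h4, AlternatingMap.zero_apply] at h5
    rw [AlternatingMap.zero_apply]
    have h6 := congrArg (starRingEnd ℂ) h5
    rw [Complex.conj_conj, map_zero] at h6
    exact h6.symm

/-- The projection to a component. -/
def prj (X : AV) (m : ℕ) : HT X →ₗ[ℚ] X.H [⋀^Fin m]→ₗ[ℚ] ℚ :=
  LinearMap.proj (φ := fun m => X.H [⋀^Fin m]→ₗ[ℚ] ℚ) m

theorem mem_img {e : C.Co X X} {m : ℕ} {v : X.H [⋀^Fin m]→ₗ[ℚ] ℚ} (hv : v ∈ C.img e m) :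
    ∃ ω, v = C.pb e ω m := by
  have h1 : C.img e m ≤ LinearMap.range ((prj X m).comp (pbL e)) := by
    refine Submodule.span_le.2 ?_
    rintro _ ⟨ω, rfl⟩
    exact ⟨ω, rfl⟩
  obtain ⟨ω, hω⟩ := h1 hv
  exact ⟨ω, hω.symm⟩

/-- The case where the source is in the class. -/
theorem caseX (K : Known C) {Z : C.Co X Y} {g : C.Co Y X} (hg : C.IsDeg 0 g)
    (h : ∀ ω, C.pb (C.o Z (C.o g Z)) ω = C.pb Z ω) {m : ℕ} (hk : KillsForms C Z m) :
    ∀ φ ∈ complexify X.per (C.img (C.o g Z) m), φ ∈ typeForms X.T m m 0 → φ = 0 := by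
  intro φ hφ hφ'
  obtain ⟨n, a, v, hv, h1⟩ := exists_comb hφ
  choose ω hω using fun k => mem_img (hv k)
  obtain ⟨η, hη⟩ : ∃ η : Fin n → HT X, ∀ k, η k = C.pb (C.o g Z) (ω k) := ⟨_, fun k => rfl⟩
  have h2 : ∀ k, v k = η k m := fun k => by rw [hω, hη]
  have h3 : ∀ k, C.pb Z (C.pb g (η k)) = η k := by
    intro k
    have h4 := h (C.pb g (ω k))
    rw [C.pb_o (C.o g Z) Z, C.pb_o Z g] at h4
    rw [hη, C.pb_o Z g, h4]
  obtain ⟨ψ, hψ⟩ := exists_form (X := Y) m a fun k => C.pb g (η k) m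
  have h5 : ψ ∈ typeForms Y.T m m 0 := by
    refine K.types g hg m m 0 φ ψ ⟨n, a, η, fun w => (h1 w).trans ?_, hψ⟩ hφ'
    simp only [h2]
    rfl
  refine hk ψ h5 φ ⟨n, a, fun k => C.pb g (η k), hψ, fun w => (h1 w).trans ?_⟩
  simp only [h3, h2]
  rfl

/-- The case where the target is in the class. -/
theorem caseY (K : Known C) {Z : C.Co X Y} {g : C.Co Y X} (hg : C.IsDeg 0 g)
    (h : ∀ ω, C.pb (C.o Z (C.o g Z)) ω = C.pb Z ω) {m : ℕ} (hk : KillsForms C Z m) :
    ∀ φ ∈ complexify Y.per (C.img (C.o Z g) m), φ ∈ typeForms Y.T m m 0 → φ = 0 := by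
  intro φ hφ hφ'
  obtain ⟨n, a, v, hv, h1⟩ := exists_comb hφ
  choose ω hω using fun k => mem_img (hv k)
  obtain ⟨η, hη⟩ : ∃ η : Fin n → HT Y, ∀ k, η k = C.pb (C.o Z g) (ω k) := ⟨_, fun k => rfl⟩
  have h2 : ∀ k, v k = η k m := fun k => by rw [hω, hη]
  have h3 : ∀ k, C.pb g (C.pb Z (η k)) = η k := by
    intro k
    have h4 := h (ω k)
    rw [C.pb_o (C.o g Z) Z, C.pb_o Z g] at h4
    rw [hη, C.pb_o g Z, h4]
  obtain ⟨ψ, hψ⟩ := exists_form (X := X) m a fun k => C.pb Z (η k) m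
  have h5 : ψ = 0 := hk φ hφ' ψ ⟨n, a, η, fun w => (h1 w).trans (by simp only [h2]; rfl),
    hψ⟩
  refine form_ext fun w => ?_
  rw [h1, AlternatingMap.zero_apply]
  have h6 := rel (A := Fin m → X.H) (B := Fin m → Y.H)
    (fun w => (⟨⟨fun f => f w, fun _ _ => rfl⟩, fun _ _ => rfl⟩ :
      (X.H [⋀^Fin m]→ₗ[ℚ] ℚ) →ₗ[ℚ] ℚ)) (fun v hv => AlternatingMap.ext hv)
    (fun w => (⟨⟨fun f => f w, fun _ _ => rfl⟩, fun _ _ => rfl⟩ :
      (Y.H [⋀^Fin m]→ₗ[ℚ] ℚ) →ₗ[ℚ] ℚ)) ((prj Y m).comp ((pbL g).comp (inc X m))) a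
    (fun k => C.pb Z (η k) m) (fun w => by
      have h7 := hψ w
      rw [h5, AlternatingMap.zero_apply] at h7
      exact h7.symm) w
  rw [← h6]
  refine Finset.sum_congr rfl fun k _ => ?_
  have h8 : ((prj Y m).comp ((pbL g).comp (inc X m))) (C.pb Z (η k) m) = v k := by
    change C.pb g (inc X m (C.pb Z (η k) m)) m = v k
    rw [K.graded g hg _ (C.pb Z (η k)) m (inc_same m _), h3, h2]
  rw [h8]
  rfl

/-- **A correspondence which acts as zero on the holomorphic forms is homologically equivalent to one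
which acts as zero on the homologically trivial zero-cycles.** -/
theorem exists_T (K : Known C) (hG : GHC C.alg X ∨ GHC C.alg Y) {Z : C.Co X Y} (hZ : C.IsDeg 0 Z)
    (hk : ∀ m : ℕ, 0 < m → KillsForms C Z m) :
    ∃ T : C.Co X Y, C.IsDeg 0 T ∧ (∀ ω, C.pb T ω = C.pb Z ω) ∧
      ∀ (O : AV) (z : C.Co O X), finrank ℚ O.H = 0 → C.IsDeg 0 z → (∀ ω, C.pb z ω = 0) →
        C.o T z = 0 := by
  obtain ⟨g, hg, h⟩ := C.regular Z hZ
  rw [neg_zero] at hg
  rcases hG with hG | hG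
  · have he : C.IsDeg 0 (C.o g Z) := by
      have h1 := C.deg_o Z g hZ hg
      rwa [zero_add] at h1
    obtain ⟨q, hq, h1⟩ := exists_q hG he (coniv_of fun m hm => caseX K hg h (hk m hm))
    have hqd := Fac_deg hq
    refine ⟨C.o Z q, ?_, fun ω => ?_, fun O z hO hz h0 => ?_⟩
    · have h2 := C.deg_o q Z hqd hZ
      rwa [zero_add] at h2
    · have h2 := h1 (C.pb Z ω)
      rw [C.pb_o Z g] at h2
      have h3 := h ω
      rw [C.pb_o (C.o g Z) Z, C.pb_o Z g] at h3
      rw [h3] at h2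
      rw [C.pb_o, h2]
    · rw [← C.assoc, kill hq hO (by norm_num) hz h0, o_zero]
  · have he : C.IsDeg 0 (C.o Z g) := by
      have h1 := C.deg_o g Z hg hZ
      rwa [zero_add] at h1
    obtain ⟨q, hq, h1⟩ := exists_q hG he (coniv_of fun m hm => caseY K hg h (hk m hm))
    have hqd := Fac_deg hq
    refine ⟨C.o Z (C.o g (C.o q Z)), ?_, fun ω => ?_, fun O z hO hz h0 => ?_⟩
    · have h2 := C.deg_o Z q hZ hqd
      have h3 := C.deg_o _ g h2 hg
      have h4 := C.deg_o _ Z h3 hZ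
      rwa [zero_add, zero_add, zero_add] at h4
    · have h2 := h1 ω
      rw [C.pb_o g Z] at h2
      have h3 := h ω
      rw [C.pb_o (C.o g Z) Z, C.pb_o Z g] at h3
      rw [C.pb_o, C.pb_o, C.pb_o, h2, h3]
    · have hz' : C.IsDeg 0 (C.o Z z) := by
        have h2 := C.deg_o z Z hz hZ
        rwa [zero_add] at h2
      rw [← C.assoc, ← C.assoc, ← C.assoc, kill hq hO (by norm_num) hz' fun ω => by
        rw [C.pb_o, h0], o_zero, o_zero]

/-- **The nilpotence.** -/
theorem nilp (K : Known C) (hG : GHC C.alg X ∨ GHC C.alg Y) {Z : C.Co X Y} (hZ : C.IsDeg 0 Z)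
    (hk : ∀ m : ℕ, 0 < m → KillsForms C Z m) {R : C.Co Y X} (hR : C.IsDeg 0 R) :
    ∃ N : ℕ, ∀ (O : AV) (z : C.Co O X), finrank ℚ O.H = 0 → C.IsDeg 0 z → (∀ ω, C.pb z ω = 0) →
      (fun y : C.Co O X => C.o R (C.o Z y))^[N] z = 0 := by
  obtain ⟨T, hT, h1, h2⟩ := exists_T K hG hZ hk
  obtain ⟨ν, hν⟩ : ∃ ν, ν = C.o R (Z - T) := ⟨_, rfl⟩
  have hνd : C.IsDeg 0 ν := by
    have h3 := C.deg_o _ R (C.deg_sub _ _ hZ hT) hR
    rw [hν]
    rwa [zero_add] at h3
  have hν0 : ∀ ω, C.pb ν ω = 0 := by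
    intro ω
    rw [hν, C.pb_o, pb_sub, h1, sub_self]
  obtain ⟨N, hN⟩ := C.nilpotent ν hνd hν0
  refine ⟨N, fun O z hO hz h0 => ?_⟩
  have key : ∀ k : ℕ, (fun y : C.Co O X => C.o R (C.o Z y))^[k] z =
      C.o ((fun g : C.Co X X => C.o ν g)^[k] (C.one X)) z ∧
      C.IsDeg 0 ((fun y : C.Co O X => C.o R (C.o Z y))^[k] z) ∧
      ∀ ω, C.pb ((fun y : C.Co O X => C.o R (C.o Z y))^[k] z) ω = 0 := by
    intro k
    induction k with
    | zero =>
      rw [Function.iterate_zero, Function.iterate_zero, id_eq, id_eq, C.one_o]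
      exact ⟨rfl, hz, h0⟩
    | succ k ih =>
      obtain ⟨ih1, ih2, ih3⟩ := ih
      rw [Function.iterate_succ_apply', Function.iterate_succ_apply']
      refine ⟨?_, ?_, fun ω => ?_⟩
      · rw [← C.assoc, ← ih1, hν, ← C.assoc]
        have h4 : C.o (Z - T) ((fun y : C.Co O X => C.o R (C.o Z y))^[k] z) =
            C.o Z ((fun y : C.Co O X => C.o R (C.o Z y))^[k] z) := by
          have h5 := C.add_o (Z - T) T ((fun y : C.Co O X => C.o R (C.o Z y))^[k] z)
          rw [sub_add_cancel, h2 O _ hO ih2 ih3, add_zero] at h5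
          exact h5.symm
        rw [h4]
      · have h3 := C.deg_o _ R (C.deg_o _ Z ih2 hZ) hR
        rwa [zero_add, zero_add] at h3
      · rw [C.pb_o, C.pb_o, ih3]
  rw [(key N).1, hN, zero_o]

/-! ### The filtration -/

variable {O : AV} (B : BlochBeilinson C O)

theorem F_zero {ν : ℕ} {i : ℤ} {z : C.Co O X} (h : B.F ν i z) : B.F ν i (0 : C.Co O X) := by
  have h1 := B.sub ν i z z h h
  rwa [sub_self] at h1

theorem F_add {ν : ℕ} {i : ℤ} {z z' : C.Co O X} (h : B.F ν i z) (h' : B.F ν i z') :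
    B.F ν i (z + z') := by
  have h1 := B.sub ν i _ _ h (B.sub ν i _ _ (F_zero B h') h')
  rwa [zero_sub, sub_neg_eq_add] at h1

theorem F_sum {ν : ℕ} {i : ℤ} {ι : Type} (s : Finset ι) (f : ι → C.Co O X)
    (h0 : B.F ν i (0 : C.Co O X)) (hf : ∀ k ∈ s, B.F ν i (f k)) : B.F ν i (∑ k ∈ s, f k) := by
  classical
  induction s using Finset.induction_on with
  | empty => rw [Finset.sum_empty]; exact h0
  | insert k s hk ih =>
    rw [Finset.sum_insert hk]
    exact F_add B (hf k (Finset.mem_insert_self _ _))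
      (ih fun j hj => hf j (Finset.mem_insert_of_mem hj))

theorem F_anti {ν μ : ℕ} (h : ν ≤ μ) {i : ℤ} {z : C.Co O X} (hz : B.F μ i z) : B.F ν i z := by
  induction μ, h using Nat.le_induction with
  | base => exact hz
  | succ μ _ ih => exact ih (B.anti _ _ _ hz)

theorem F_deg {ν : ℕ} {i : ℤ} {z : C.Co O X} (hz : B.F ν i z) : C.IsDeg i z :=
  (B.zero i z).1 (F_anti B (Nat.zero_le ν) hz)

theorem F_hom {ν : ℕ} (hν : 0 < ν) {i : ℤ} {z : C.Co O X} (hz : B.F ν i z) (ω : HT X) :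
    C.pb z ω = 0 := ((B.one i z).1 (F_anti B hν hz)).2 ω

theorem F_prod {m : ℕ} {z : C.Co O X} (hz : Products C m z) : B.F m 0 z := by
  induction hz with
  | base z hz => exact (B.zero 0 z).2 hz
  | step m f z hf h0 _ ih => exact B.trivial m 0 0 z f hf h0 ih
  | sub m z z' _ _ ih ih' => exact B.sub m 0 z z' ih ih'

/-- Hom-trivial differences. -/
theorem F_diff {ν : ℕ} {Z T : C.Co X Y} (hZ : C.IsDeg 0 Z) (hT : C.IsDeg 0 T)
    (h : ∀ ω, C.pb T ω = C.pb Z ω) {z : C.Co O X} (hz : B.F ν 0 z) :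
    B.F (ν + 1) 0 (C.o Z z - C.o T z) := by
  have h1 := B.trivial ν 0 0 z (Z - T) (C.deg_sub _ _ hZ hT)
    (fun ω => by rw [pb_sub, h, sub_self]) hz
  have h2 := C.add_o (Z - T) T z
  rw [sub_add_cancel] at h2
  rw [h2, add_sub_cancel_right]
  exact h1

/-- **The graded piece `Gr^i CH_0(X)` is governed by `H^i(X)`.** -/
theorem governed (K : Known C) (hO : finrank ℚ O.H = 0) {n : ℕ} (hn : finrank ℚ X.H = 2 * n)
    {i : ℕ} {π : C.Co X X} (hπ : C.IsDeg 0 π)
    (hπ' : ∀ ω, C.pb π ω i = ω i ∧ ∀ l, l ≠ i → C.pb π ω l = 0) {z : C.Co O X} (hz : B.F i 0 z) :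
    B.F (i + 1) 0 (z - C.o π z) := by
  classical
  by_cases hi : n < i
  · obtain rfl : z = 0 := B.bound i 0 z hz (by rw [hn]; push_cast; omega)
    rw [o_zero, sub_zero]
    have h1 := B.trivial i 0 0 (0 : C.Co O X) (0 : C.Co X X) (deg_zero hπ) (fun ω => zero_pb ω) hz
    rwa [zero_o] at h1
  choose p hp1 hp2 hp3 using K.bloch X
  have hp : ∀ m ω, C.pb (p m) ω = inc X m (ω m) := fun m ω =>
    eq_inc (hp2 m ω).1 (hp2 m ω).2
  have hzd := F_deg B hz
  have h0 : B.F (i + 1) 0 (0 : C.Co O X) := by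
    have h1 := B.trivial i 0 0 z (0 : C.Co X X) (deg_zero hπ) (fun ω => zero_pb ω) hz
    rwa [zero_o] at h1
  -- the parts
  have h1 : ∀ m, m ≠ i → B.F (i + 1) 0 (C.o (p m) z) := by
    intro m hm
    rcases lt_or_gt_of_ne hm with hm | hm
    · obtain ⟨s, L, hs, hL, h2⟩ := K.lefschetz X n m hn (by omega)
      have h3 : C.o s (C.o (p m) z) = 0 := by
        have h4 := B.functorial i _ _ _ s hs (B.functorial i 0 0 z (p m) (hp1 m) hz)
        refine B.bound i _ _ h4 ?_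
        rw [hn]
        push_cast
        omega
      have h5 := F_diff B (hp1 m) (T := C.o (p m) (C.o L (C.o s (p m)))) (by
        have h6 := C.deg_o _ _ (C.deg_o _ _ (C.deg_o _ _ (hp1 m) hs) hL) (hp1 m)
        have h7 : (0 : ℤ) + ((n : ℤ) - m) + ((m : ℤ) - n) + 0 = 0 := by ring
        rwa [h7] at h6) (fun ω => by
        rw [C.pb_o (C.o L (C.o s (p m))), C.pb_o (C.o s (p m)) L, C.pb_o (p m) s,
          ← C.pb_o s L, hp m (C.pb (C.o L s) _), h2, hp m ω, inc_same]) hz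
      rw [← C.assoc, ← C.assoc, ← C.assoc, h3, o_zero, o_zero, sub_zero] at h5
      exact h5
    · exact F_anti B hm (F_prod B (hp3 m O z hO hzd))
  -- the sum
  have hsum : ∀ (s : Finset ℕ) (ω : HT X), C.pb (∑ m ∈ s, p m) ω = ∑ m ∈ s, inc X m (ω m) := by
    intro s ω
    induction s using Finset.induction_on with
    | empty => rw [Finset.sum_empty, Finset.sum_empty, zero_pb]
    | insert m s hm ih => rw [Finset.sum_insert hm, Finset.sum_insert hm, C.add_pb, ih, hp]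
  have hosum : ∀ s : Finset ℕ, C.o (∑ m ∈ s, p m) z = ∑ m ∈ s, C.o (p m) z := by
    intro s
    induction s using Finset.induction_on with
    | empty => rw [Finset.sum_empty, Finset.sum_empty, zero_o]
    | insert m s hm ih => rw [Finset.sum_insert hm, Finset.sum_insert hm, C.add_o, ih]
  have h2 := F_diff B (C.deg_one X) (T := ∑ m ∈ Finset.range (finrank ℚ X.H + 1), p m)
    (deg_sum _ _ (C.deg_one X) fun m _ => hp1 m)
    (fun ω => by rw [hsum, ← sum_inc, C.pb_one]) hz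
  rw [C.one_o, hosum] at h2
  -- the part `i`
  have hir : i ∈ Finset.range (finrank ℚ X.H + 1) := Finset.mem_range.2 (by omega)
  have h3 : B.F (i + 1) 0 (∑ m ∈ (Finset.range (finrank ℚ X.H + 1)).erase i, C.o (p m) z) :=
    F_sum B _ _ h0 fun m hm => h1 m (Finset.ne_of_mem_erase hm)
  have h4 := F_diff B (hp1 i) (T := π) hπ (fun ω => by
    rw [hp i ω]
    exact eq_inc (hπ' ω).1 (hπ' ω).2) hz
  have h5 := F_add B (F_add B h2 h3) h4
  rw [← Finset.add_sum_erase _ _ hir] at h5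
  have h6 : z - (C.o (p i) z + ∑ m ∈ (Finset.range (finrank ℚ X.H + 1)).erase i, C.o (p m) z) +
      ∑ m ∈ (Finset.range (finrank ℚ X.H + 1)).erase i, C.o (p m) z +
      (C.o (p i) z - C.o π z) = z - C.o π z := by abel
  rwa [h6] at h5

/-- **The generalized Bloch conjecture for zero-cycles.** -/
theorem bloch (K : Known C) (hO : finrank ℚ O.H = 0) (hG : GHC C.alg X ∨ GHC C.alg Y)
    {Z : C.Co X Y} (hZ : C.IsDeg 0 Z) {i : ℕ} (hk : KillsForms C Z i) {z : C.Co O X}
    (hz : B.F i 0 z) : B.F (i + 1) 0 (C.o Z z) := by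
  obtain ⟨p, hp1, hp2, -⟩ := K.bloch X i
  obtain ⟨r, hr1, hr2, -⟩ := K.bloch Y i
  have hZz := B.functorial i 0 0 z Z hZ hz
  have hpz := B.functorial i 0 0 z p hp1 hz
  have hZpz := B.functorial i 0 0 _ Z hZ hpz
  rw [zero_add] at hZz
  rw [zero_add] at hpz
  rw [zero_add] at hZpz
  -- replace `Z` by `W`
  obtain ⟨W, hW⟩ : ∃ W, W = C.o r (C.o Z p) := ⟨_, rfl⟩
  have hWd : C.IsDeg 0 W := by
    have h1 := C.deg_o _ _ (C.deg_o _ _ hp1 hZ) hr1
    rw [hW]
    rwa [zero_add, zero_add] at h1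
  have h1 : B.F (i + 1) 0 (z - C.o p z) := governed B K hO X.rank hp1 hp2 hz
  have h2 : B.F (i + 1) 0 (C.o Z z - C.o Z (C.o p z)) := by
    have h3 := B.functorial _ 0 0 _ Z hZ h1
    have h4 := C.o_add Z (z - C.o p z) (C.o p z)
    rw [sub_add_cancel] at h4
    rw [h4, add_sub_cancel_right]
    rwa [zero_add] at h3
  have h3 : B.F (i + 1) 0 (C.o Z (C.o p z) - C.o W z) := by
    have h4 := governed B K hO Y.rank hr1 hr2 hZpz
    rwa [hW, ← C.assoc, ← C.assoc]
  have hWpb : ∀ ω, C.pb W ω = inc X i (C.pb Z ω i) := by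
    intro ω
    rw [hW, C.pb_o, C.pb_o]
    rw [eq_inc (hp2 _).1 (hp2 _).2, K.graded Z hZ _ ω i (hr2 ω).1]
  have h5 : B.F (i + 1) 0 (C.o W z) := by
    rcases Nat.eq_zero_or_pos i with hi | hi
    · subst hi
      have h6 : ∀ ω, C.pb W ω = 0 := by
        intro ω
        have h7 : C.pb Z ω 0 = 0 := by
          obtain ⟨ψ, hψ⟩ := exists_form (X := Y) 0 (fun _ : Fin 1 => (1 : ℂ)) fun _ => ω 0
          obtain ⟨φ, hφ⟩ := exists_form (X := X) 0 (fun _ : Fin 1 => (1 : ℂ)) fun _ => C.pb Z ω 0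
          have h8 : ψ ∈ typeForms Y.T 0 0 0 := by
            intro t u
            rw [pow_zero, pow_zero, one_mul, one_mul]
            congr 1
            exact Subsingleton.elim _ _
          have h9 := hk ψ h8 φ ⟨1, fun _ => 1, fun _ => ω, hψ, hφ⟩
          ext w
          have h10 := hφ w
          rw [h9, AlternatingMap.zero_apply, Fin.sum_univ_one, one_mul] at h10
          rw [AlternatingMap.zero_apply]
          exact_mod_cast h10.symm
        rw [hWpb, h7, map_zero]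
      exact B.trivial 0 0 0 z W hWd h6 hz
    · obtain ⟨T, hT, h6, h7⟩ := exists_T K hG hWd (fun m hm => by
        by_cases hmi : m = i
        · subst hmi
          intro ψ hψ φ hφ
          obtain ⟨n, a, ω, h8, h9⟩ := hφ
          refine hk ψ hψ φ ⟨n, a, ω, h8, fun w => (h9 w).trans ?_⟩
          refine Finset.sum_congr rfl fun k _ => ?_
          unfold rat
          rw [hWpb, inc_same]
        · intro ψ _ φ hφ
          obtain ⟨n, a, ω, -, h9⟩ := hφ
          refine form_ext fun w => (h9 w).trans ?_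
          rw [AlternatingMap.zero_apply]
          refine Finset.sum_eq_zero fun k _ => ?_
          unfold rat
          rw [hWpb, inc_ne hmi, AlternatingMap.zero_apply, Rat.cast_zero, mul_zero])
      have h8 := F_diff B hWd hT h6 hz
      rwa [h7 O z hO (F_deg B hz) (F_hom B hi hz), sub_zero] at h8
  have h6 := F_add B (F_add B h2 h3) h5
  have h7 : C.o Z z - C.o Z (C.o p z) + (C.o Z (C.o p z) - C.o W z) + C.o W z = C.o Z z := by abel
  rwa [h7] at h6

end

end Pool.Agent.N178.GB
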